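import Pool.Agent.Lib.MP_2a5e5c_nt.Main

/-!
The congruences for the sums with base `-1024`: parts (a) and (c) of the question hold for every
prime `p > 3`, and part (b) holds for `p` if and only if `p ≠ 41`. In particular the three parts
all hold for `p` if and only if `p ≠ 41`.
-/

namespace Pool.Agent.Results.MP_2a5e5c_nt.SunCongruences

open Pool.Agent.MP_2a5e5c_nt

theorem result (p : ℕ) [Fact p.Prime] (h3 : 3 < p) :
    ((PartA p ∧ PartB p ∧ PartC p) ↔ p ≠ 41) ∧ PartA p ∧ PartC p ∧ (PartB p ↔ p ≠ 41) := by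
  have h5 : 5 ≤ p := by
    rcases Nat.lt_or_ge p 5 with h | h
    · have : p = 4 := by omega
      subst this
      exact absurd (Fact.out : Nat.Prime 4) (by norm_num)
    · exact h
  have hb : PartB p ↔ p ≠ 41 := by
    constructor
    · rintro h rfl
      exact not_part_b h
    · exact part_b h5
  exact ⟨⟨fun h => hb.mp h.2.1, fun h => ⟨part_a h5, hb.mpr h, part_c h5⟩⟩,
    part_a h5, part_c h5, hb⟩

end Pool.Agent.Results.MP_2a5e5c_nt.SunCongruences
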